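import Pool.Agent.Q161.OS.Stm
import Pool.Agent.Q224.OD.CHB

/-! # Project OS (helper161), job CHL (helper96) -/

set_option autoImplicit false

namespace Pool.Agent.Q96.OS2

open Polynomial NumberField IsDedekindDomain Finset
open Pool.Agent.Q51.EL
open Pool.Agent.Q161.OD (P1 P2 Dvg)
open Pool.Agent.Q161.OS
open Pool.Agent.W401.Cheb (TaskTor HasFrob Chebotarev xp)
open Pool.Agent.Q224.OD (dvg_of exists_field exists_res frob_core)

/-- a Galois field with a square root of `z` and an automorphism which is trivial on `L` and changes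
the sign of the root -/
theorem exists_gal_aux {A : Type} [Field A] [Algebra ℚ A] [IsAlgClosure ℚ A]
    (L : Type) [Field L] [NumberField L] (z : L) (hz : ¬ IsSquare z) :
    ∃ (M : Type) (_ : Field M) (_ : NumberField M) (_ : IsGalois ℚ M) (i : L →+* M) (w : M)
      (g : Gal(M/ℚ)), w ^ 2 = i z ∧ (∀ x, g (i x) = i x) ∧ g w = -w ∧
      ∃ D : ℕ, 0 < D ∧ ∀ (l : ℕ) [Fact l.Prime], ¬ l ∣ D →
      Nat.card (𝓞 M →+* AlgebraicClosure (ZMod l)) = Nat.card Gal(M/ℚ) := by
  classical
  have hac : IsAlgClosed A := IsAlgClosure.isAlgClosed ℚ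
  let j : L →ₐ[ℚ] A := IsAlgClosed.lift
  have hKf : FiniteDimensional ℚ j.fieldRange :=
    (AlgEquiv.ofInjectiveField j).toLinearEquiv.finiteDimensional
  obtain ⟨w, hw⟩ := IsAlgClosed.exists_pow_nat_eq (j z) (by norm_num : 0 < 2)
  have hwK : w ∉ j.fieldRange := by
    rintro ⟨y, hy⟩
    apply hz
    refine ⟨y, ?_⟩
    apply j.toRingHom.injective
    have h1 : j (y * y) = j z := by
      rw [map_mul, ← hw, sq]
      have : j y = w := hy
      rw [this]
    exact h1.symm
  have hN : Normal ℚ A := IsAlgClosure.normal ℚ _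
  have hGal : IsGalois ℚ A := {}
  obtain ⟨M, _, _, _, e, heK, hew⟩ := exists_field j.fieldRange hKf w
  obtain ⟨φ1, hφ1K, hφ1w⟩ : ∃ φ1 : A ≃ₐ[ℚ] A,
      φ1 ∈ j.fieldRange.fixingSubgroup ∧ φ1 w = -w := by
    have h1 : ∃ φ1 : A ≃ₐ[ℚ] A,
        φ1 ∈ j.fieldRange.fixingSubgroup ∧ φ1 w ≠ w := by
      by_contra hcon
      push Not at hcon
      apply hwK
      have h2 := InfiniteGalois.fixedField_fixingSubgroup j.fieldRange
      rw [← h2, IntermediateField.mem_fixedField_iff]
      exact hcon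
    obtain ⟨φ1, h2, h3⟩ := h1
    refine ⟨φ1, h2, ?_⟩
    have h4 : φ1 (w ^ 2) = w ^ 2 := by
      apply (IntermediateField.mem_fixingSubgroup_iff j.fieldRange φ1).1 h2 _
      rw [hw]
      exact ⟨z, rfl⟩
    rw [map_pow] at h4
    rcases sq_eq_sq_iff_eq_or_eq_neg.1 h4 with h5 | h5
    · exact absurd h5 h3
    · exact h5
  obtain ⟨g, hg⟩ := exists_res e φ1
  -- the embedding of `L`
  have hei : Function.Injective e := e.injective
  have hi : ∃ i : L →+* M, ∀ x, e (i x) = j x := by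
    choose! f hf using heK
    have hf' : ∀ x : L, e (f (j x)) = j x := fun x => hf (j x) ⟨x, rfl⟩
    refine ⟨⟨⟨⟨fun x => f (j x), ?_⟩, ?_⟩, ?_, ?_⟩, hf'⟩
    · apply hei
      rw [hf', map_one, map_one]
    · intro x y
      apply hei
      rw [hf', map_mul, map_mul, hf', hf']
    · apply hei
      rw [hf', map_zero, map_zero]
    · intro x y
      apply hei
      rw [hf', map_add, map_add, hf', hf']
  obtain ⟨i, hi⟩ := hi
  obtain ⟨w', hw'⟩ := hew
  obtain ⟨D, hD0, hD⟩ := frob_core W54.ChTor.main e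
  refine ⟨M, inferInstance, inferInstance, inferInstance, i, w', g, ?_, ?_, ?_, D, hD0,
    fun l _ hl => (hD l hl).1⟩
  · apply hei
    rw [map_pow, hw', hi, hw]
  · intro x
    apply hei
    rw [← hg, hi]
    exact (IntermediateField.mem_fixingSubgroup_iff j.fieldRange φ1).1 hφ1K _ ⟨x, rfl⟩
  · apply hei
    rw [← hg, map_neg, hw', hφ1w]

theorem exists_gal (L : Type) [Field L] [NumberField L] (z : L) (hz : ¬ IsSquare z) :
    ∃ (M : Type) (_ : Field M) (_ : NumberField M) (_ : IsGalois ℚ M) (i : L →+* M) (w : M)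
      (g : Gal(M/ℚ)), w ^ 2 = i z ∧ (∀ x, g (i x) = i x) ∧ g w = -w ∧
      ∃ D : ℕ, 0 < D ∧ ∀ (l : ℕ) [Fact l.Prime], ¬ l ∣ D →
      Nat.card (𝓞 M →+* AlgebraicClosure (ZMod l)) = Nat.card Gal(M/ℚ) := by
  obtain ⟨A, _, _, hA⟩ : ∃ (A : Type) (_ : Field A) (_ : Algebra ℚ A), IsAlgClosure ℚ A :=
    ⟨AlgebraicClosure ℚ, inferInstance, _, AlgebraicClosure.instIsAlgClosure ℚ⟩
  exact exists_gal_aux (A := A) L z hz

theorem chl : S_CHL := by
  intro L _ _ z hz0 hz
  obtain ⟨M, _, _, _, i, w, g, hw, hgi, hgw, D, hD0, hD⟩ := exists_gal L (z : L) hz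
  set Nz : ℕ := (Algebra.norm ℤ z).natAbs with hNz
  have hNz0 : Nz ≠ 0 := by
    rw [hNz, Int.natAbs_ne_zero]
    exact Algebra.norm_ne_zero_iff.2 hz0
  have hNzm : ∀ v : Ideal (𝓞 L), z ∈ v → ((Nz : ℕ) : 𝓞 L) ∈ v := by
    intro v hv
    have h1 : ((Ideal.absNorm (Ideal.span {z}) : ℕ) : 𝓞 L) ∈ Ideal.span {z} :=
      Ideal.absNorm_mem _
    rw [Ideal.absNorm_span_singleton] at h1
    exact (Ideal.span_singleton_le_iff_mem v).2 hv h1
  -- the square root as an integer of `M`
  have hwi : IsIntegral ℤ w := by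
    apply IsIntegral.of_pow (n := 2) (by norm_num)
    rw [hw]
    have h1 : IsIntegral ℤ (z : L) := RingOfIntegers.isIntegral_coe z
    exact h1.map i.toIntAlgHom
  let wO : 𝓞 M := ⟨w, hwi⟩
  let iO : 𝓞 L →+* 𝓞 M := RingOfIntegers.mapRingHom i
  have hiO : ∀ x : 𝓞 L, g • iO x = iO x := by
    intro x
    apply RingOfIntegers.ext
    exact hgi (x : L)
  have hwO : wO ^ 2 = iO z := by
    apply RingOfIntegers.ext
    exact hw
  have hgwO : g • wO = - wO := by
    apply RingOfIntegers.ext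
    exact hgw
  refine dvg_of g (D * (2 * Nz)) (by positivity) (Nat.card Gal(M/ℚ)) Nat.card_pos _
    (fun l hl => hl.1) ?_ ?_
  · intro l hl hlD hx
    have hlp : Fact l.Prime := ⟨hl⟩
    have hlD1 : ¬ l ∣ 2 := fun h => hlD (Dvd.dvd.mul_left (Dvd.dvd.mul_right h _) _)
    have hlD2 : ¬ l ∣ Nz := fun h => hlD (Dvd.dvd.mul_left (Dvd.dvd.mul_left h _) _)
    unfold xp at hx
    rw [dif_pos hl] at hx
    obtain ⟨⟨ψ, hψ⟩⟩ := (Nat.card_ne_zero.1 hx).1
    have hch : CharP (AlgebraicClosure (ZMod l)) l :=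
      charP_of_injective_algebraMap (algebraMap (ZMod l) (AlgebraicClosure (ZMod l))).injective l
    -- the homomorphism to the prime field
    have hfix : ∀ x : 𝓞 L, ψ (iO x) ^ l = ψ (iO x) := by
      intro x
      rw [← hψ, hiO]
    obtain ⟨φ, hφ⟩ : ∃ φ : 𝓞 L →+* ZMod l, ∀ x,
        algebraMap (ZMod l) (AlgebraicClosure (ZMod l)) (φ x) = ψ (iO x) := by
      choose f hf using fun x : 𝓞 L => Pool.Agent.Q154.EL.mem_range_of_pow (hfix x)
      have hinj := (algebraMap (ZMod l) (AlgebraicClosure (ZMod l))).injective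
      refine ⟨⟨⟨⟨f, ?_⟩, ?_⟩, ?_, ?_⟩, hf⟩
      · apply hinj
        rw [hf, map_one, map_one, map_one]
      · intro x y
        apply hinj
        rw [hf, map_mul, map_mul, map_mul, hf, hf]
      · apply hinj
        rw [hf, map_zero, map_zero, map_zero]
      · intro x y
        apply hinj
        rw [hf, map_add, map_add, map_add, hf, hf]
    have hnorm : Ideal.absNorm (RingHom.ker φ) = l := by
      have h1 : Function.Surjective φ := ZMod.ringHom_surjective φ
      have h2 := RingHom.quotientKerEquivOfSurjective h1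
      rw [Ideal.absNorm_apply, Submodule.cardQuot_apply]
      show Nat.card (𝓞 L ⧸ RingHom.ker φ) = l
      rw [Nat.card_congr h2.toEquiv, Nat.card_zmod]
    have hne : RingHom.ker φ ≠ ⊥ := by
      intro h
      rw [h, Ideal.absNorm_bot] at hnorm
      exact hl.ne_zero hnorm.symm
    refine ⟨hl, ⟨RingHom.ker φ, RingHom.ker_isPrime φ, hne⟩, ?_, hnorm, ?_⟩
    · show ((l : ℕ) : 𝓞 L) ∈ RingHom.ker φ
      rw [RingHom.mem_ker, map_natCast, ZMod.natCast_self]
    · intro y hy
      have hy' : z - y ^ 2 ∈ RingHom.ker φ := hy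
      rw [RingHom.mem_ker, map_sub, map_pow, sub_eq_zero] at hy'
      have h1 : ψ wO ^ 2 = ψ (iO y) ^ 2 := by
        rw [← map_pow, hwO, ← hφ, ← hφ, hy', map_pow]
      have h2 : ψ wO ^ l = ψ wO := by
        rcases sq_eq_sq_iff_eq_or_eq_neg.1 h1 with h | h
        · rw [h, hfix]
        · rw [h]
          have hodd : Odd l := hl.odd_of_ne_two (fun h => hlD1 (by rw [h]))
          rw [hodd.neg_pow, hfix]
      have h3 : ψ (g • wO) = ψ wO ^ l := hψ wO
      rw [hgwO, map_neg, h2] at h3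
      have h4 : (2 : AlgebraicClosure (ZMod l)) * ψ wO = 0 := by linear_combination -h3
      have h5 : (2 : AlgebraicClosure (ZMod l)) ≠ 0 := by
        intro h
        apply hlD1
        rw [← CharP.cast_eq_zero_iff (AlgebraicClosure (ZMod l)) l 2]
        exact_mod_cast h
      have h6 : ψ wO = 0 := (mul_eq_zero.1 h4).resolve_left h5
      have h7 : z ∈ RingHom.ker φ := by
        rw [RingHom.mem_ker]
        apply (algebraMap (ZMod l) (AlgebraicClosure (ZMod l))).injective
        rw [map_zero, hφ, ← hwO, map_pow, h6]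
        ring
      have h8 := hNzm _ h7
      rw [RingHom.mem_ker, map_natCast, ZMod.natCast_eq_zero_iff] at h8
      exact hlD2 h8
  · intro l hl hlD
    have : Fact l.Prime := ⟨hl⟩
    have hlD' : ¬ l ∣ D := fun h => hlD (Dvd.dvd.mul_right h _)
    rw [← hD l hlD']
    unfold xp
    rw [dif_pos hl]
    have hfin : Finite (𝓞 M →+* AlgebraicClosure (ZMod l)) := by
      refine Nat.finite_of_card_ne_zero ?_
      rw [hD l hlD']
      exact Nat.card_pos.ne'
    exact Nat.card_le_card_of_injective _ Subtype.val_injective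

end Pool.Agent.Q96.OS2
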