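import Pool.Agent.Q161.OS.Stm
import Pool.Agent.Q161.OD.Ar4
import Pool.Agent.Q247.EL.CNT1

/-! # Project OS (helper161), job THIN (helper96) -/

set_option autoImplicit false

namespace Pool.Agent.Q96.OS2

open Polynomial NumberField IsDedekindDomain Finset
open Pool.Agent.Q51.EL
open Pool.Agent.Q161.OD (P1 P2 Dvg)
open Pool.Agent.Q161.OS
open Pool.Agent.Q247.EL (VV finite_VV iInf_VV pairwise_VV)

/-- congruent integers have congruent norms -/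
theorem norm_congr (L : Type) [Field L] [NumberField L] (l : ℤ) (x y u : 𝓞 L)
    (h : x = y + (l : 𝓞 L) * u) : l ∣ Algebra.norm ℤ x - Algebra.norm ℤ y := by
  classical
  obtain ⟨n, hn⟩ : ∃ n : ℕ, n = l.natAbs := ⟨_, rfl⟩
  have b := Module.Free.chooseBasis ℤ (𝓞 L)
  rw [← Int.natAbs_dvd, ← hn, ← ZMod.intCast_zmod_eq_zero_iff_dvd, Int.cast_sub, sub_eq_zero,
    Algebra.norm_eq_matrix_det b, Algebra.norm_eq_matrix_det b]
  have e1 : ∀ M : Matrix (Module.Free.ChooseBasisIndex ℤ (𝓞 L))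
      (Module.Free.ChooseBasisIndex ℤ (𝓞 L)) ℤ, ((M.det : ℤ) : ZMod n) =
      ((Int.castRingHom (ZMod n)).mapMatrix M).det := fun M => by
    rw [← RingHom.map_det]
    rfl
  rw [e1, e1]
  congr 1
  rw [h, map_add, map_mul, map_add, map_mul]
  have h2 : (Int.castRingHom (ZMod n)).mapMatrix (Algebra.leftMulMatrix b ((l : ℤ) : 𝓞 L)) = 0 := by
    have h3 : ((l : ℤ) : 𝓞 L) = algebraMap ℤ (𝓞 L) l := by simp
    rw [h3, Algebra.leftMulMatrix b |>.commutes]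
    ext i j
    rw [RingHom.mapMatrix_apply, Matrix.map_apply, Matrix.algebraMap_matrix_apply, Matrix.zero_apply]
    split_ifs with hij
    · rw [Algebra.algebraMap_self_apply]
      show ((l : ℤ) : ZMod n) = 0
      rw [ZMod.intCast_zmod_eq_zero_iff_dvd, hn, Int.natAbs_dvd]
    · simp
  rw [h2, zero_mul, add_zero]

/-- one square root modulo `l` from the square roots modulo the primes above `l` -/
theorem crt_sq (L : Type) [Field L] [NumberField L] {l : ℕ} (hl : l.Prime)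
    (hsq : Squarefree (Ideal.span {(l : 𝓞 L)})) (y : 𝓞 L)
    (h : ∀ v : HeightOneSpectrum (𝓞 L), Abv v l → ∃ g : 𝓞 L, y - g ^ 2 ∈ v.asIdeal) :
    ∃ g u : 𝓞 L, y = g ^ 2 + (l : 𝓞 L) * u := by
  classical
  have := finite_VV L hl
  choose! G hG using h
  have hsurj := (Ideal.quotientInfRingEquivPiQuotient (fun v : VV L l => v.1.asIdeal)
    (pairwise_VV L)).surjective
  obtain ⟨q, hq⟩ := hsurj fun v => Ideal.Quotient.mk v.1.asIdeal (G v.1)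
  obtain ⟨g, rfl⟩ := Ideal.Quotient.mk_surjective q
  have hg : ∀ v : VV L l, G v.1 - g ∈ v.1.asIdeal := by
    intro v
    rw [← Ideal.Quotient.eq]
    exact (congrFun hq v).symm
  have h1 : y - g ^ 2 ∈ Ideal.span {(l : 𝓞 L)} := by
    rw [← iInf_VV L hl hsq, Ideal.mem_iInf]
    intro v
    have h2 := hG v.1 v.2
    have h3 := hg v
    have h4 : y - g ^ 2 = (y - G v.1 ^ 2) + (G v.1 + g) * (G v.1 - g) := by ring
    rw [h4]
    exact add_mem h2 (Ideal.mul_mem_left _ _ h3)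
  obtain ⟨u, hu⟩ := Ideal.mem_span_singleton.1 h1
  exact ⟨g, u, by rw [← hu]; ring⟩

theorem thin : S_CHL → S_THIN := by
  intro hCHL L _ _ hodd B t κ hB hsqf α hα
  have hα0 : α ≠ 0 := by
    rintro rfl
    exact hα ⟨0, 0, by simp⟩
  set Nα : ℤ := Algebra.norm ℤ α with hNα
  have hN0 : Nα ≠ 0 := Algebra.norm_ne_zero_iff.2 hα0
  have hz0 : α * (Nα : 𝓞 L) ≠ 0 := mul_ne_zero hα0 (by exact_mod_cast hN0)
  have hzsq : ¬ IsSquare ((α * (Nα : 𝓞 L) : 𝓞 L) : L) := by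
    rintro ⟨η, hη⟩
    apply hα
    refine ⟨(Nα : ℚ)⁻¹, η, ?_⟩
    have h1 : ((α * (Nα : 𝓞 L) : 𝓞 L) : L) = (α : L) * (Nα : L) := by
      have h4 := map_mul (algebraMap (𝓞 L) L) α (Nα : 𝓞 L)
      rw [map_intCast] at h4
      exact h4
    rw [h1] at hη
    have h2 : (Nα : L) ≠ 0 := by exact_mod_cast hN0
    have h3 : (((Nα : ℚ)⁻¹ : ℚ) : L) = (Nα : L)⁻¹ := by
      rw [Rat.cast_inv, Rat.cast_intCast]
    rw [h3, sq, ← hη]
    field_simp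
  have hd := hCHL L (α * (Nα : 𝓞 L)) hz0 hzsq
  have hbad : 2 * B * Nα.natAbs ≠ 0 := by
    have := Int.natAbs_ne_zero.2 hN0
    positivity
  refine ⟨_, hd.diff hbad, ?_⟩
  rintro m ⟨D, hG⟩ l ⟨⟨hl, v1, hv1, -, hv1z⟩, hlB⟩ hlm
  have hlB' : ¬ l ∣ B := fun h => hlB (Dvd.dvd.mul_right (Dvd.dvd.mul_left h _) _)
  have hlN : ¬ (l : ℤ) ∣ Nα := fun h => hlB (Dvd.dvd.mul_left (Int.natCast_dvd.1 h) _)
  have hlD : (l : ℤ) ∣ D := by
    by_contra h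
    exact (hG.even l hl hlB' h).1 hlm
  rcases hG.odd l hl hlB' hlD with ⟨-, -, c, hc, hcv⟩ | ⟨h, -⟩
  swap
  · exact h hlm
  obtain ⟨g, u, hgu⟩ := crt_sq L hl (hsqf l hl hlB') _ hcv
  -- the norms
  have h1 := norm_congr L (l : ℤ) ((c : 𝓞 L) * α) (g ^ 2) u (by rw [hgu]; norm_cast)
  rw [map_mul, map_pow, ← hNα] at h1
  have h2 : Algebra.norm ℤ ((c : ℤ) : 𝓞 L) = c ^ Module.finrank ℚ L := by
    have h3 : ((c : ℤ) : 𝓞 L) = algebraMap ℤ (𝓞 L) c := by simp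
    rw [h3, Algebra.norm_algebraMap, RingOfIntegers.rank]
  rw [h2] at h1
  obtain ⟨k, hk⟩ := hodd
  rw [hk] at h1
  -- `c * N(α)` is a square modulo `l`
  have hlp : Prime (l : ℤ) := Nat.prime_iff_prime_int.1 hl
  have hck : ¬ (l : ℤ) ∣ c ^ k := fun h => hc (hlp.dvd_of_dvd_pow h)
  have hcop : IsCoprime (c ^ k) (l : ℤ) := by
    rw [isCoprime_comm]
    exact (hlp.coprime_iff_not_dvd).2 hck
  obtain ⟨a, b, hab⟩ := hcop
  obtain ⟨e, he⟩ := h1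
  set n0 : ℤ := Algebra.norm ℤ g with hn0
  -- `c N = (a n0)^2 mod l`
  have h4 : (l : ℤ) ∣ c * Nα - (a * n0) ^ 2 := by
    have h5 : c * Nα * (a * c ^ k) ^ 2 = a ^ 2 * (n0 ^ 2 + l * e) := by
      have : c ^ (2 * k + 1) * Nα = n0 ^ 2 + l * e := by linear_combination he
      calc c * Nα * (a * c ^ k) ^ 2 = a ^ 2 * (c ^ (2 * k + 1) * Nα) := by ring
        _ = _ := by rw [this]
    have h6 : a * c ^ k = 1 - b * l := by linear_combination hab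
    rw [h6] at h5
    refine ⟨a ^ 2 * e + c * Nα * (2 * b - b ^ 2 * l), ?_⟩
    linear_combination h5
  obtain ⟨e', he'⟩ := h4
  -- an inverse of `c` modulo `l`
  have hcop' : IsCoprime c (l : ℤ) := by
    rw [isCoprime_comm]
    exact (hlp.coprime_iff_not_dvd).2 hc
  obtain ⟨a', b', hab'⟩ := hcop'
  apply hv1z ((a' : 𝓞 L) * (a : 𝓞 L) * (n0 : 𝓞 L) * g)
  have hlv : (l : 𝓞 L) ∈ v1.asIdeal := hv1
  have key : ∃ s : 𝓞 L, α * (Nα : 𝓞 L) - ((a' : 𝓞 L) * (a : 𝓞 L) * (n0 : 𝓞 L) * g) ^ 2 =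
      s * (l : 𝓞 L) := by
    have e1 : (a' : 𝓞 L) * (c : 𝓞 L) + (b' : 𝓞 L) * (l : 𝓞 L) = 1 := by
      have := congrArg (fun z : ℤ => (z : 𝓞 L)) hab'
      push_cast at this
      exact this
    have e2 : (c : 𝓞 L) * (Nα : 𝓞 L) - ((a : 𝓞 L) * (n0 : 𝓞 L)) ^ 2 = (l : 𝓞 L) * (e' : 𝓞 L) := by
      have := congrArg (fun z : ℤ => (z : 𝓞 L)) he'
      push_cast at this
      exact this
    have e3 : (c : 𝓞 L) * α = g ^ 2 + (l : 𝓞 L) * u := hgu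
    -- `α N = (a' c)^2 α N + l (...)`, `(a' c)^2 α N = a'^2 (c α) (c N)`
    refine ⟨(α * (Nα : 𝓞 L)) * (2 * (b' : 𝓞 L) - (b' : 𝓞 L) ^ 2 * (l : 𝓞 L)) +
      (a' : 𝓞 L) ^ 2 * (u * ((c : 𝓞 L) * (Nα : 𝓞 L)) + g ^ 2 * (e' : 𝓞 L)), ?_⟩
    have e4 : (a' : 𝓞 L) * (c : 𝓞 L) = 1 - (b' : 𝓞 L) * (l : 𝓞 L) := by linear_combination e1
    have e5 : (α * (Nα : 𝓞 L)) * ((a' : 𝓞 L) * (c : 𝓞 L)) ^ 2 =
        (a' : 𝓞 L) ^ 2 * ((g ^ 2 + (l : 𝓞 L) * u) * ((c : 𝓞 L) * (Nα : 𝓞 L))) := by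
      rw [← e3]
      ring
    rw [e4] at e5
    linear_combination e5 + (a' : 𝓞 L) ^ 2 * g ^ 2 * e2
  obtain ⟨s, hs⟩ := key
  rw [hs]
  exact Ideal.mul_mem_left _ _ hlv

end Pool.Agent.Q96.OS2
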